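import Mathlib
import Pool.Agent.R701.IntVal

/-!
# Polynomial density does not force equality of the eigenvalue sets

Let `D = ℤ`, `K = ℚ`, `B = ℚ(i)` and `A = ℤ[5i]`.  The elements of `B` that are integral over `ℤ`
are the Gaussian integers.  Since `5 = (2 + i)(2 - i)` splits, every Gaussian integer is congruent to
a rational integer modulo each power of `2 + i` and of `2 - i`; this implies that every `f ∈ ℚ[X]`
with `f(ℤ[5i]) ⊆ ℤ[i]` satisfies `f(ℤ[i]) ⊆ ℤ[i]`, so that `A` is polynomially dense in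
`A' = ℤ[i]`.  But `i` is an eigenvalue of an element of `A'` and of no element of `A`.
-/

open Polynomial Pool.Agent.R701.IntVal

namespace Pool.Agent.Results.MP_efce82_al.DenseNotSameEigenvalues

/-- The set `Ω_S` of all roots, in the algebraic closure of `K`, of the minimal polynomials over `K`
of the elements of `S`, for a subset `S` of a `K`-algebra `B`. -/
def Omega (K : Type*) [Field K] {B : Type*} [Ring B] [Algebra K B] (S : Set B) :
    Set (AlgebraicClosure K) :=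
  {z | ∃ b ∈ S, aeval z (minpoly K b) = 0}

/-- The field `ℚ(i)`, as the quadratic `ℚ`-algebra with basis `1, ω` and `ω² = -1`. -/
abbrev QI : Type := QuadraticAlgebra ℚ (-1) 0

/-- The ring `ℤ[i]`, as the quadratic `ℤ`-algebra with basis `1, ω` and `ω² = -1`. -/
abbrev ZI : Type := QuadraticAlgebra ℤ (-1) 0

/-- The subring `ℤ[5i] = {x + 5 y i : x, y ∈ ℤ}` of `ℚ(i)`. -/
def A5 : Subalgebra ℤ QI where
  carrier := {z | ∃ x y : ℤ, z = ⟨x, 5 * y⟩}
  mul_mem' := by
    rintro _ _ ⟨x, y, rfl⟩ ⟨x', y', rfl⟩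
    refine ⟨x * x' - 25 * y * y', x * y' + y * x', ?_⟩
    ext
    · simp; ring
    · simp; ring
  add_mem' := by
    rintro _ _ ⟨x, y, rfl⟩ ⟨x', y', rfl⟩
    refine ⟨x + x', y + y', ?_⟩
    ext
    · simp
    · simp; ring
  algebraMap_mem' := fun r => ⟨r, 0, by ext <;> simp⟩

/-- The inclusion of `ℤ[i]` into `ℚ(i)`. -/
def j : ZI →+* QI where
  toFun z := ⟨z.re, z.im⟩
  map_one' := by ext <;> simp [QuadraticAlgebra.re_one, QuadraticAlgebra.im_one]
  map_zero' := by ext <;> simp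
  map_mul' := fun x y => by ext <;> simp
  map_add' := fun x y => by ext <;> simp

theorem j_apply (z : ZI) : j z = ⟨z.re, z.im⟩ := rfl

theorem j_inj : Function.Injective j := by
  intro x y h
  rw [j_apply, j_apply] at h
  have h1 := congrArg QuadraticAlgebra.re h
  have h2 := congrArg QuadraticAlgebra.im h
  simp only [Int.cast_inj] at h1 h2
  exact QuadraticAlgebra.ext h1 h2

/-- The integral elements of `ℚ(i)` are the Gaussian integers. -/
theorem integral_iff (z : QI) : IsIntegral ℤ z ↔ ∃ w : ZI, j w = z := by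
  constructor
  · intro hz
    have hstar : IsIntegral ℤ (star z) := hz.map ((starRingEnd QI).toIntAlgHom)
    have hQ : Function.Injective (algebraMap ℚ QI) := QuadraticAlgebra.algebraMap_injective
    have htr : IsIntegral ℤ (2 * z.re : ℚ) := by
      have h1 : IsIntegral ℤ (z + star z) := hz.add hstar
      have h2 : z + star z = algebraMap ℚ QI (2 * z.re) := by
        rw [QuadraticAlgebra.algebraMap_eq]
        ext
        · simp [QuadraticAlgebra.re_star]; ring
        · simp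
      rw [h2] at h1
      exact (isIntegral_algebraMap_iff hQ).mp h1
    have hnm : IsIntegral ℤ (z.re ^ 2 + z.im ^ 2 : ℚ) := by
      have h1 : IsIntegral ℤ (z * star z) := hz.mul hstar
      have h2 : z * star z = algebraMap ℚ QI (z.re ^ 2 + z.im ^ 2) := by
        rw [QuadraticAlgebra.algebraMap_eq]
        ext
        · simp [QuadraticAlgebra.re_star]; ring
        · simp [QuadraticAlgebra.re_star]; ring
      rw [h2] at h1
      exact (isIntegral_algebraMap_iff hQ).mp h1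
    obtain ⟨p, hp⟩ := IsIntegrallyClosed.isIntegral_iff.mp htr
    obtain ⟨N, hN⟩ := IsIntegrallyClosed.isIntegral_iff.mp hnm
    have him : IsIntegral ℤ (2 * z.im : ℚ) := by
      refine ⟨X ^ 2 - C (4 * N - p ^ 2), ?_, ?_⟩
      · exact monic_X_pow_sub_C _ two_ne_zero
      · simp only [eval₂_sub, eval₂_X_pow, eval₂_C]
        have h1 : (algebraMap ℤ ℚ) (4 * N - p ^ 2) = 4 * algebraMap ℤ ℚ N - (algebraMap ℤ ℚ p) ^ 2 := by
          simp
        rw [h1, hN, hp]; ring
    obtain ⟨q, hq⟩ := IsIntegrallyClosed.isIntegral_iff.mp him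
    simp only [algebraMap_int_eq, eq_intCast] at hp hq hN
    have h4 : p ^ 2 + q ^ 2 = 4 * N := by
      have : ((p ^ 2 + q ^ 2 : ℤ) : ℚ) = ((4 * N : ℤ) : ℚ) := by
        push_cast; rw [hp, hq, hN]; ring
      exact_mod_cast this
    have hpe : p % 2 = 0 ∧ q % 2 = 0 := by
      rcases Int.emod_two_eq_zero_or_one p with h | h <;>
        rcases Int.emod_two_eq_zero_or_one q with h' | h' <;> simp only [h, h']
      · simp
      all_goals
        exfalso
        have e1 : (p ^ 2 + q ^ 2) % 4 = 0 := by rw [h4]; simp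
        have hp' : p % 4 = 0 ∨ p % 4 = 1 ∨ p % 4 = 2 ∨ p % 4 = 3 := by omega
        have hq' : q % 4 = 0 ∨ q % 4 = 1 ∨ q % 4 = 2 ∨ q % 4 = 3 := by omega
        rcases hp' with e | e | e | e <;> rcases hq' with e' | e' | e' | e' <;>
          first
          | omega
          | (rw [pow_two, pow_two, Int.add_emod, Int.mul_emod, Int.mul_emod q, e, e'] at e1
             revert e1; decide)
    obtain ⟨p', hp'⟩ : ∃ p', p = 2 * p' := ⟨p / 2, by omega⟩
    obtain ⟨q', hq'⟩ : ∃ q', q = 2 * q' := ⟨q / 2, by omega⟩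
    refine ⟨⟨p', q'⟩, ?_⟩
    rw [j_apply]
    ext
    · show (p' : ℚ) = z.re
      rw [hp'] at hp; push_cast at hp; linarith
    · show (q' : ℚ) = z.im
      rw [hq'] at hq; push_cast at hq; linarith
  · rintro ⟨w, rfl⟩
    have h1 : IsIntegral ℤ w := Algebra.IsIntegral.isIntegral w
    exact h1.map j.toIntAlgHom

theorem mem_A5_j {z : QI} (hz : z ∈ A5) : ∃ w : ZI, j w = z := by
  obtain ⟨x, y, rfl⟩ := hz
  exact ⟨⟨x, 5 * y⟩, by rw [j_apply]; ext <;> simp⟩

/-- `2 + i`. -/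
def pr : ZI := ⟨2, 1⟩

theorem pr_mul : pr * star pr = 5 := by
  decide

theorem pr_coprime : IsCoprime pr (star pr) := ⟨star pr - 1, -1, by decide⟩

theorem pr_pow (k : ℕ) : (pr ^ (k + 1)).re ≡ 2 * (pr ^ (k + 1)).im [ZMOD 5] ∧
    ¬ (pr ^ (k + 1)).im ≡ 0 [ZMOD 5] := by
  induction k with
  | zero => exact ⟨by decide, by decide⟩
  | succ k ih =>
    obtain ⟨h1, h2⟩ := ih
    set w := pr ^ (k + 1) with hw
    have e1 : (pr ^ (k + 1 + 1)).re = 2 * w.re - w.im := by
      rw [pow_succ, ← hw]; simp [pr]; ring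
    have e2 : (pr ^ (k + 1 + 1)).im = w.re + 2 * w.im := by
      rw [pow_succ, ← hw]; simp [pr]; ring
    rw [e1, e2]
    simp only [Int.ModEq] at h1 h2 ⊢
    omega

/-- Every Gaussian integer is congruent to a rational integer modulo every power of `2 + i`. -/
theorem exists_int (k : ℕ) : ∃ c : ℤ, pr ^ k ∣ (⟨0, 1⟩ - (c : ZI)) := by
  rcases k with - | k
  · exact ⟨0, by simp⟩
  obtain ⟨h1, h2⟩ := pr_pow k
  set w := pr ^ (k + 1) with hw
  have hc : IsCoprime w.im (5 ^ (k + 1)) := by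
    apply IsCoprime.pow_right
    have h5 : Prime (5 : ℤ) := by norm_num
    rw [isCoprime_comm]
    rw [h5.coprime_iff_not_dvd]
    intro h
    exact h2 (Int.modEq_zero_iff_dvd.mpr h)
  obtain ⟨s, t, hst⟩ := hc
  refine ⟨-(s * w.re), ?_⟩
  have h5 : w * star pr ^ (k + 1) = ((5 ^ (k + 1) : ℤ) : ZI) := by
    rw [hw, ← mul_pow, pr_mul]; push_cast; ring
  generalize (5 ^ (k + 1) : ℤ) = N at h5 hst
  have h6 : (⟨0, 1⟩ - ((-(s * w.re) : ℤ) : ZI)) = w * ((s : ZI) + (t : ZI) * star pr ^ (k + 1) * ⟨0, 1⟩) := by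
    have h7 : w * ((s : ZI) + (t : ZI) * star pr ^ (k + 1) * ⟨0, 1⟩) =
        (s : ZI) * w + (t : ZI) * (w * star pr ^ (k + 1)) * ⟨0, 1⟩ := by ring
    rw [h7, h5]
    ext
    · simp
    · simp
      linarith
  exact ⟨_, h6⟩

/-- The values of an integral polynomial at congruent points. -/
theorem dvd_of_congr {F : ℤ[X]} {z z' d : ZI} (h : d ∣ z - z') (h' : d ∣ aeval z' F) :
    d ∣ aeval z F := by
  have h1 : z - z' ∣ aeval z F - aeval z' F := by
    rw [← eval_map_algebraMap, ← eval_map_algebraMap]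
    exact sub_dvd_eval_sub z z' _
  have := dvd_add (h.trans h1) h'
  rwa [sub_add_cancel] at this

/-- **Polynomial density.** -/
theorem dense (f : ℚ[X]) (hf : ∀ a ∈ A5, IsIntegral ℤ (aeval a f)) (b : QI) (hb : IsIntegral ℤ b) :
    IsIntegral ℤ (aeval b f) := by
  obtain ⟨z, rfl⟩ := (integral_iff b).mp hb
  obtain ⟨d, hd, hF⟩ := IsLocalization.integerNormalization_spec (nonZeroDivisors ℤ) f
  set F := IsLocalization.integerNormalization (nonZeroDivisors ℤ) f with hFdef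
  have hd0 : d ≠ 0 := nonZeroDivisors.ne_zero hd
  -- evaluation of `F`
  have hev : ∀ w : ZI, j (aeval w F) = (d : QI) * aeval (j w) f := by
    intro w
    have h1 : j (aeval w F) = aeval (j w) F := (aeval_algHom_apply j.toIntAlgHom w F).symm
    rw [h1, ← aeval_map_algebraMap ℚ, hF, map_zsmul, zsmul_eq_mul]
  have hA : ∀ w : ZI, j w ∈ A5 → (d : ZI) ∣ aeval w F := by
    intro w hw
    obtain ⟨u, hu⟩ := (integral_iff _).mp (hf _ hw)
    refine ⟨u, j_inj ?_⟩
    rw [hev, map_mul, hu, map_intCast]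
  -- factor `d`
  obtain ⟨k, m, hm, hdm⟩ : ∃ (k : ℕ) (m : ℤ), ¬ (5 : ℤ) ∣ m ∧ d = 5 ^ k * m := by
    have hfin : FiniteMultiplicity (5 : ℤ) d :=
      Int.finiteMultiplicity_iff.mpr ⟨by norm_num, hd0⟩
    obtain ⟨m, hm, hm2⟩ := hfin.exists_eq_pow_mul_and_not_dvd
    exact ⟨_, m, hm2, hm⟩
  have hcast : ∀ x : ℤ, j ((x : ℤ) : ZI) ∈ A5 := by
    intro x
    rw [map_intCast]
    exact ⟨x, 0, by ext <;> simp⟩
  -- the prime `2 + i`
  have hpk : ∀ (q : ZI), q ^ k ∣ (d : ZI) → (∃ c : ℤ, q ^ k ∣ (⟨0, 1⟩ - (c : ZI))) →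
      q ^ k ∣ aeval z F := by
    rintro q hq ⟨c, hc⟩
    have h1 : q ^ k ∣ z - ((z.re + z.im * c : ℤ) : ZI) := by
      have h2 : z - ((z.re + z.im * c : ℤ) : ZI) = (z.im : ZI) * (⟨0, 1⟩ - (c : ZI)) := by
        ext
        · simp
        · simp
      rw [h2]
      exact hc.mul_left _
    exact dvd_of_congr h1 (hq.trans (hA _ (hcast _)))
  have h5d : (5 : ZI) ^ k ∣ (d : ZI) := ⟨(m : ZI), by rw [hdm]; push_cast; ring⟩
  have hprd : pr ^ k ∣ (d : ZI) := by
    refine dvd_trans ?_ h5d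
    rw [← pr_mul, mul_pow]; exact dvd_mul_right _ _
  have hprd' : (star pr) ^ k ∣ (d : ZI) := by
    refine dvd_trans ?_ h5d
    rw [← pr_mul, mul_pow]; exact dvd_mul_left _ _
  have h1 : pr ^ k ∣ aeval z F := hpk pr hprd (exists_int k)
  have h2 : (star pr) ^ k ∣ aeval z F := by
    apply hpk (star pr) hprd'
    obtain ⟨c, u, hu⟩ := exists_int k
    refine ⟨-c, -star u, ?_⟩
    have h3 := congrArg star hu
    rw [star_mul', star_pow] at h3
    have h4 : star (⟨0, 1⟩ - (c : ZI)) = -(⟨0, 1⟩ - ((-c : ℤ) : ZI)) := by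
      ext
      · simp
      · simp
    rw [h4] at h3
    rw [mul_neg, ← h3, neg_neg]
  have h3 : (5 : ZI) ^ k ∣ aeval z F := by
    rw [← pr_mul, mul_pow]
    exact (pr_coprime.pow).mul_dvd h1 h2
  -- the prime-to-5 part
  have h4 : (m : ZI) ∣ aeval z F := by
    have hco : IsCoprime (5 : ℤ) m := by
      have h5 : Prime (5 : ℤ) := by norm_num
      rw [h5.coprime_iff_not_dvd]
      exact hm
    obtain ⟨s, t, hst⟩ := hco
    -- `b' = 5 s b`
    have h5 : (m : ZI) ∣ z - ⟨z.re, 5 * (s * z.im)⟩ := by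
      refine ⟨⟨0, t * z.im⟩, ?_⟩
      ext
      · simp
      · simp
        linear_combination (-z.im) * hst
    refine dvd_of_congr h5 (dvd_trans ?_ (hA _ ?_))
    · exact ⟨(5 : ZI) ^ k, by rw [hdm]; push_cast; ring⟩
    · refine ⟨z.re, s * z.im, ?_⟩
      rw [j_apply]
      ext <;> simp
  have h5 : (d : ZI) ∣ aeval z F := by
    have hco : IsCoprime ((5 : ZI) ^ k) (m : ZI) := by
      have h5 : Prime (5 : ℤ) := by norm_num
      have h6 : IsCoprime ((5 : ℤ) ^ k) m := (h5.coprime_iff_not_dvd.mpr hm).pow_left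
      have h7 := h6.map (Int.castRingHom ZI)
      simpa using h7
    have h6 := hco.mul_dvd h3 h4
    rw [hdm]
    push_cast
    exact h6
  obtain ⟨u, hu⟩ := h5
  rw [integral_iff]
  refine ⟨u, ?_⟩
  have h6 := hev z
  rw [hu, map_mul, map_intCast] at h6
  have h7 : (d : ℚ) ≠ 0 := by exact_mod_cast hd0
  have h8 : ∀ x y : QI, (d : QI) * x = (d : QI) * y → x = y := by
    intro x y hxy
    have h9 := congrArg QuadraticAlgebra.re hxy
    have h10 := congrArg QuadraticAlgebra.im hxy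
    simp at h9 h10
    ext
    · exact h9.resolve_right (by exact_mod_cast hd0)
    · exact h10.resolve_right (by exact_mod_cast hd0)
  exact h8 _ _ h6

theorem A5_fg : (Subalgebra.toSubmodule A5).FG := by
  classical
  refine ⟨{(1 : QI), (⟨0, 5⟩ : QI)}, ?_⟩
  rw [Finset.coe_pair]
  apply le_antisymm
  · rw [Submodule.span_le]
    rintro x (rfl | rfl)
    · exact A5.one_mem
    · exact ⟨0, 1, by ext <;> simp⟩
  · rintro _ ⟨x, y, rfl⟩
    rw [Submodule.mem_span_pair]
    refine ⟨x, y, ?_⟩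
    ext
    · simp [QuadraticAlgebra.re_one]
    · simp [QuadraticAlgebra.im_one]; ring

theorem A5_span : Submodule.span ℚ (A5 : Set QI) = ⊤ := by
  rw [eq_top_iff]
  intro z _
  have h1 : (1 : QI) ∈ Submodule.span ℚ (A5 : Set QI) := Submodule.subset_span A5.one_mem
  have h2 : (⟨0, 5⟩ : QI) ∈ Submodule.span ℚ (A5 : Set QI) :=
    Submodule.subset_span ⟨0, 1, by ext <;> simp⟩
  have h3 : z = z.re • (1 : QI) + (z.im / 5) • (⟨0, 5⟩ : QI) := by
    ext
    · simp [QuadraticAlgebra.re_one]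
    · simp [QuadraticAlgebra.im_one]
  rw [h3]
  exact Submodule.add_mem _ (Submodule.smul_mem _ _ h1) (Submodule.smul_mem _ _ h2)

theorem irr : Irreducible (X ^ 2 + 1 : ℚ[X]) := by
  have h1 : (X ^ 2 + 1 : ℚ[X]).natDegree = 2 := by compute_degree!
  rw [Polynomial.irreducible_iff_roots_eq_zero_of_degree_le_three (by omega) (by omega)]
  rw [Multiset.eq_zero_iff_forall_notMem]
  intro x hx
  have h2 : eval x (X ^ 2 + 1 : ℚ[X]) = 0 := (mem_roots'.mp hx).2
  simp only [eval_add, eval_pow, eval_X, eval_one] at h2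
  nlinarith [sq_nonneg x]

theorem omega_ne : Omega ℚ (A5 : Set QI) ≠ Omega ℚ {b : QI | IsIntegral ℤ b} := by
  intro h
  obtain ⟨ζ, hζ⟩ := IsAlgClosed.exists_pow_nat_eq (-1 : AlgebraicClosure ℚ) (n := 2) (by norm_num)
  -- `ζ` is an eigenvalue of `i`
  have h1 : ζ ∈ Omega ℚ {b : QI | IsIntegral ℤ b} := by
    refine ⟨⟨0, 1⟩, ?_, ?_⟩
    · exact (integral_iff _).mpr ⟨⟨0, 1⟩, by rw [j_apply]; ext <;> simp⟩
    · have h2 : aeval (⟨0, 1⟩ : QI) (X ^ 2 + 1 : ℚ[X]) = 0 := by
        rw [map_add, map_pow, aeval_X, map_one, pow_two]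
        ext
        · simp [QuadraticAlgebra.re_one]
        · simp [QuadraticAlgebra.im_one]
      have h3 : minpoly ℚ (⟨0, 1⟩ : QI) ∣ X ^ 2 + 1 := minpoly.dvd _ _ h2
      have hint : IsIntegral ℚ (⟨0, 1⟩ : QI) := Algebra.IsIntegral.isIntegral _
      have h4 : Associated (minpoly ℚ (⟨0, 1⟩ : QI)) (X ^ 2 + 1) := by
        have := irr.dvd_iff.mp h3
        rcases this with h5 | h5
        · exact absurd h5 (minpoly.not_isUnit ℚ _)
        · exact h5.symm
      obtain ⟨g, hg⟩ := h4.symm.dvd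
      rw [hg, map_mul, map_add, map_pow, aeval_X, map_one, hζ]
      simp
  rw [← h] at h1
  obtain ⟨b, ⟨x, y, rfl⟩, hb⟩ := h1
  -- the characteristic polynomial of `x + 5 y i`
  have h2 : aeval (⟨x, 5 * y⟩ : QI) (X ^ 2 - C (2 * x : ℚ) * X + C ((x : ℚ) ^ 2 + 25 * y ^ 2)) = 0 := by
    rw [map_add, map_sub, map_mul, map_pow, aeval_X, aeval_C, aeval_C, pow_two,
      QuadraticAlgebra.algebraMap_eq, QuadraticAlgebra.algebraMap_eq]
    ext
    · simp; ring
    · simp; ring
  have h3 := minpoly.dvd ℚ _ h2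
  obtain ⟨g, hg⟩ := h3
  have h4 : aeval ζ (X ^ 2 - C (2 * x : ℚ) * X + C ((x : ℚ) ^ 2 + 25 * y ^ 2)) = 0 := by
    rw [hg, map_mul]
    have hb' : aeval ζ (minpoly ℚ (⟨x, 5 * y⟩ : QI)) = 0 := by
      convert! hb
    rw [hb', zero_mul]
  rw [map_add, map_sub, map_mul, map_pow, aeval_X, aeval_C, aeval_C, hζ] at h4
  -- `ζ` is not rational
  by_cases hx : x = 0
  · subst hx
    have h5 : algebraMap ℚ (AlgebraicClosure ℚ) (25 * y ^ 2 - 1) = 0 := by
      have h6 : algebraMap ℚ (AlgebraicClosure ℚ) (25 * y ^ 2 - 1) =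
          -1 - algebraMap ℚ (AlgebraicClosure ℚ) (2 * ((0 : ℤ) : ℚ)) * ζ +
            algebraMap ℚ (AlgebraicClosure ℚ) ((((0 : ℤ) : ℚ)) ^ 2 + 25 * y ^ 2) := by
        simp; ring
      rw [h6]; exact h4
    rw [map_eq_zero] at h5
    have h6 : (25 * y ^ 2 : ℤ) = 1 := by
      have : (25 * (y : ℚ) ^ 2) = 1 := by linarith
      exact_mod_cast this
    omega
  · have hx' : (2 * x : ℚ) ≠ 0 := by
      simp [hx]
    have h5 : ζ = algebraMap ℚ (AlgebraicClosure ℚ) (((x : ℚ) ^ 2 + 25 * y ^ 2 - 1) / (2 * x)) := by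
      have h6 : algebraMap ℚ (AlgebraicClosure ℚ) (2 * x) ≠ 0 := by
        rw [Ne, map_eq_zero]; exact hx'
      have h7 : algebraMap ℚ (AlgebraicClosure ℚ) (2 * x) * ζ =
          algebraMap ℚ (AlgebraicClosure ℚ) ((x : ℚ) ^ 2 + 25 * y ^ 2 - 1) := by
        rw [map_sub, map_one]
        linear_combination -h4
      rw [map_div₀, eq_div_iff h6, mul_comm]
      exact h7
    have h6 : algebraMap ℚ (AlgebraicClosure ℚ)
        ((((x : ℚ) ^ 2 + 25 * y ^ 2 - 1) / (2 * x)) ^ 2) = algebraMap ℚ (AlgebraicClosure ℚ) (-1) := by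
      rw [map_pow, ← h5, hζ, map_neg, map_one]
    have h7 := (algebraMap ℚ (AlgebraicClosure ℚ)).injective h6
    nlinarith [sq_nonneg (((x : ℚ) ^ 2 + 25 * y ^ 2 - 1) / (2 * x))]

/-- **Polynomial density does not imply `Ω_A = Ω_{A'}`.**  Let `D = ℤ`, `K = ℚ`, `B = ℚ(i)` and
`A = ℤ[5i]`.  Then `A` is finitely generated as a `ℤ`-module and spans `B` over `ℚ`,
`Int_K(A, A') = Int_K(A')`, and `Ω_A ≠ Ω_{A'}`, where `A'` is the set of all the elements of `B`
that are integral over `ℤ`. -/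
theorem result :
    (Subalgebra.toSubmodule A5).FG ∧ Submodule.span ℚ (A5 : Set QI) = ⊤ ∧
      IntKPrime ℤ ℚ A5 = {f : ℚ[X] | ∀ b : QI, IsIntegral ℤ b → IsIntegral ℤ (aeval b f)} ∧
      Omega ℚ (A5 : Set QI) ≠ Omega ℚ {b : QI | IsIntegral ℤ b} := by
  refine ⟨A5_fg, A5_span, ?_, omega_ne⟩
  ext f
  constructor
  · intro hf b hb
    exact dense f hf b hb
  · intro hf a ha
    exact hf a ((integral_iff a).mpr (mem_A5_j ha))

end Pool.Agent.Results.MP_efce82_al.DenseNotSameEigenvalues
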